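import Mathlib
import Pool.Agent.H373R2.T7.BilF
import Pool.Agent.H373R2.T7.EnergyDef
import Pool.Agent.H373R2.NB.WeylSum

set_option autoImplicit false

/-! Elementary facts with a small closure (as in W93.LV2, H373R2.T7.BilLam, H373R2.T7.BilE and TH212.EH). -/

namespace Pool.Agent.TH212.PL
open Finset Polynomial
open scoped Pointwise
open Pool.Agent.H807R2.Dav
open Pool.Agent.H373R2.T7 (orth sq_expand majorant_pow parseval_Icc triple fz energy pow_expand conj_ee)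

lemma dir (X : ℕ) (F : ℕ → ℕ → ℝ) :
    ∑ n ∈ Icc 1 X, ∑ d ∈ n.divisors, F d (n / d) = ∑ d ∈ Icc 1 X, ∑ m ∈ Icc 1 (X / d), F d m := by
  have h1 : ∀ n ∈ Icc 1 X, ∑ d ∈ n.divisors, F d (n / d) = ∑ d ∈ Icc 1 X, if d ∣ n then F d (n / d) else 0 := by
    intro n hn
    rw [mem_Icc] at hn
    rw [← sum_filter]
    apply sum_congr _ fun _ _ => rfl
    ext d
    rw [Nat.mem_divisors, mem_filter, mem_Icc]
    constructor
    · rintro ⟨h1, h2⟩
      exact ⟨⟨Nat.pos_of_dvd_of_pos h1 (by omega), (Nat.le_of_dvd (by omega) h1).trans hn.2⟩, h1⟩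
    · rintro ⟨_, h1⟩
      exact ⟨h1, by omega⟩
  rw [sum_congr rfl h1, sum_comm]
  apply sum_congr rfl
  intro d hd
  rw [mem_Icc] at hd
  rw [← sum_filter]
  apply sum_nbij' (fun n => n / d) (fun m => d * m)
  · intro n hn
    rw [mem_filter, mem_Icc] at hn
    rw [mem_Icc]
    obtain ⟨⟨h1, h2⟩, c, rfl⟩ := hn
    rw [Nat.mul_div_cancel_left _ (by omega)]
    refine ⟨Nat.pos_of_ne_zero (by rintro rfl; simp at h1), ?_⟩
    rw [Nat.le_div_iff_mul_le (by omega), mul_comm]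
    exact h2
  · intro m hm
    rw [mem_Icc] at hm
    rw [mem_filter, mem_Icc]
    refine ⟨⟨Nat.mul_pos (by omega) (by omega), ?_⟩, dvd_mul_right _ _⟩
    have := (Nat.le_div_iff_mul_le (by omega : 0 < d)).1 hm.2
    rw [mul_comm]
    exact this
  · intro n hn
    rw [mem_filter] at hn
    exact Nat.mul_div_cancel' hn.2
  · intro m _
    exact Nat.mul_div_cancel_left _ (by omega)
  · intro n _
    rfl

lemma log1_nonneg (X : ℕ) : 0 ≤ 1 + Real.log X := by
  have := Real.log_natCast_nonneg X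
  linarith

lemma harm (Q : ℕ) : ∑ q ∈ Icc 1 Q, 1 / (q : ℝ) ≤ 1 + Real.log Q := by
  have h5 := harmonic_le_one_add_log Q
  rw [harmonic_eq_sum_Icc] at h5
  push_cast at h5
  simpa [one_div] using h5

lemma tau_mul (m n : ℕ) : (m * n).divisors.card ≤ m.divisors.card * n.divisors.card := by
  rw [Nat.divisors_mul]
  exact card_mul_le

/-- moments of the divisor function -/
lemma tau_pow_div (m X : ℕ) : ∑ n ∈ Icc 1 X, (n.divisors.card : ℝ) ^ m / n ≤ (1 + Real.log X) ^ (2 ^ m) := by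
  induction m with
  | zero =>
    simp only [pow_zero, pow_one]
    exact harm X
  | succ m ih =>
    have e1 := dir X (fun d k => ((d.divisors.card : ℝ) ^ m / d) * ((k.divisors.card : ℝ) ^ m / k))
    have e2 : ∀ n ∈ Icc 1 X, (n.divisors.card : ℝ) ^ (m + 1) / n ≤
        ∑ d ∈ n.divisors, ((d.divisors.card : ℝ) ^ m / d) * (((n / d).divisors.card : ℝ) ^ m / ((n / d : ℕ) : ℝ)) := by
      intro n hn
      rw [mem_Icc] at hn
      have hn0 : (0 : ℝ) < n := by exact_mod_cast hn.1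
      have e3 : ∀ d ∈ n.divisors, (n.divisors.card : ℝ) ^ m / n ≤
          ((d.divisors.card : ℝ) ^ m / d) * (((n / d).divisors.card : ℝ) ^ m / ((n / d : ℕ) : ℝ)) := by
        intro d hd
        have h1 := Nat.dvd_of_mem_divisors hd
        have h2 := tau_mul d (n / d)
        rw [Nat.mul_div_cancel' h1] at h2
        have h3 : (n.divisors.card : ℝ) ^ m ≤ (d.divisors.card : ℝ) ^ m * ((n / d).divisors.card : ℝ) ^ m := by
          rw [← mul_pow]
          exact pow_le_pow_left₀ (Nat.cast_nonneg _) (by exact_mod_cast h2) m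
        have h4 : (n : ℝ) = (d : ℝ) * ((n / d : ℕ) : ℝ) := by
          rw [← Nat.cast_mul, Nat.mul_div_cancel' h1]
        calc (n.divisors.card : ℝ) ^ m / n ≤ (d.divisors.card : ℝ) ^ m * ((n / d).divisors.card : ℝ) ^ m / n :=
              div_le_div_of_nonneg_right h3 hn0.le
          _ = _ := by rw [h4, mul_div_mul_comm]
      have e4 := sum_le_sum e3
      rw [sum_const, nsmul_eq_mul] at e4
      refine le_trans (le_of_eq ?_) e4
      ring
    refine (sum_le_sum e2).trans ?_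
    rw [e1]
    have hnn : ∀ k : ℕ, 0 ≤ (k.divisors.card : ℝ) ^ m / k := fun k => by positivity
    have e5 : ∀ d ∈ Icc 1 X, ∑ k ∈ Icc 1 (X / d), ((d.divisors.card : ℝ) ^ m / d) * ((k.divisors.card : ℝ) ^ m / k) ≤
        ((d.divisors.card : ℝ) ^ m / d) * (1 + Real.log X) ^ (2 ^ m) := by
      intro d _
      rw [← mul_sum]
      apply mul_le_mul_of_nonneg_left _ (hnn d)
      refine le_trans ?_ ih
      exact sum_le_sum_of_subset_of_nonneg (Icc_subset_Icc_right (Nat.div_le_self _ _)) (fun k _ _ => hnn k)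
    refine (sum_le_sum e5).trans ?_
    rw [← sum_mul]
    refine (mul_le_mul_of_nonneg_right ih (pow_nonneg (log1_nonneg X) _)).trans (le_of_eq ?_)
    rw [← pow_add, pow_succ]
    congr 1
    omega

/-- The additive energy of order `h` of a finite family of integers. -/
noncomputable def En (h : ℕ) {ι : Type} [Fintype ι] (v : ι → ℤ) : ℕ :=
  Nat.card {q : (Fin h → ι) × (Fin h → ι) // ∑ j, v (q.1 j) = ∑ j, v (q.2 j)}

/-- enumeration of a finite type -/
lemma enum (ι : Type) [Fintype ι] [Nonempty ι] : ∃ f : ℕ → ι,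
    Set.InjOn f (Icc 1 (Fintype.card ι) : Finset ℕ) ∧ ∀ i, ∃ m ∈ Icc 1 (Fintype.card ι), f m = i := by
  classical
  obtain ⟨i₀⟩ := ‹Nonempty ι›
  let e := (Fintype.equivFin ι)
  refine ⟨fun m => if h : m - 1 < Fintype.card ι then e.symm ⟨m - 1, h⟩ else i₀, ?_, ?_⟩
  · intro m hm m' hm' h
    rw [coe_Icc, Set.mem_Icc] at hm hm'
    have h1 : m - 1 < Fintype.card ι := by omega
    have h2 : m' - 1 < Fintype.card ι := by omega
    simp only [h1, h2, dif_pos] at h
    have h3 := e.symm.injective h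
    rw [Fin.mk.injEq] at h3
    omega
  · intro i
    refine ⟨(e i : ℕ) + 1, mem_Icc.2 ⟨by omega, (e i).2⟩, ?_⟩
    have h1 : (e i : ℕ) + 1 - 1 < Fintype.card ι := by simp
    simp only [h1, dif_pos]
    have : (⟨(e i : ℕ) + 1 - 1, h1⟩ : Fin (Fintype.card ι)) = e i := by
      apply Fin.ext
      simp
    rw [this, Equiv.symm_apply_apply]

lemma sum_enum {ι : Type} [Fintype ι] (f : ℕ → ι) (hinj : Set.InjOn f (Icc 1 (Fintype.card ι) : Finset ℕ))
    (hsurj : ∀ i, ∃ m ∈ Icc 1 (Fintype.card ι), f m = i) (F : ι → ℝ) :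
    ∑ m ∈ Icc 1 (Fintype.card ι), F (f m) = ∑ i, F i := by
  apply sum_bij (fun m _ => f m)
  · intro m _; exact mem_univ _
  · intro m hm m' hm' h; exact hinj (by exact_mod_cast hm) (by exact_mod_cast hm') h
  · intro i _
    obtain ⟨m, hm, h⟩ := hsurj i
    exact ⟨m, hm, h⟩
  · intro m _; rfl

lemma energy_enum {ι : Type} [Fintype ι] (h : ℕ) (v : ι → ℤ) (f : ℕ → ι) (c : ℤ)
    (hinj : Set.InjOn f (Icc 1 (Fintype.card ι) : Finset ℕ)) :
    energy h (Fintype.card ι) (fun m => v (f m) - c) ≤ En h v := by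
  classical
  unfold energy En
  rw [Nat.card_eq_fintype_card, Fintype.card_subtype]
  apply card_le_card_of_injOn (fun q => (fun j => f (q.1 j), fun j => f (q.2 j)))
  · intro q hq
    rw [mem_coe, mem_filter, mem_product, Fintype.mem_piFinset, Fintype.mem_piFinset] at hq
    rw [mem_coe, mem_filter]
    refine ⟨mem_univ _, ?_⟩
    have h1 := hq.2
    rw [sum_sub_distrib, sum_sub_distrib] at h1
    exact sub_left_inj.1 h1
  · intro q hq q' hq' h2
    rw [mem_coe, mem_filter, mem_product, Fintype.mem_piFinset, Fintype.mem_piFinset] at hq hq'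
    simp only [Prod.mk.injEq] at h2
    apply Prod.ext
    · funext j
      exact hinj (by exact_mod_cast hq.1.1 j) (by exact_mod_cast hq'.1.1 j) (congrFun h2.1 j)
    · funext j
      exact hinj (by exact_mod_cast hq.1.2 j) (by exact_mod_cast hq'.1.2 j) (congrFun h2.2 j)

/-- Markov's inequality -/
lemma markov {ι : Type} [Fintype ι] (P : ι → Prop) [DecidablePred P] (F : ι → ℝ) (t b : ℝ) (ht : 0 < t)
    (hF : ∀ i, P i → t ≤ F i) (hF0 : ∀ i, 0 ≤ F i) (hb : ∑ i, F i ≤ b) : ((univ.filter P).card : ℝ) ≤ b / t := by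
  rw [le_div_iff₀ ht]
  calc ((univ.filter P).card : ℝ) * t = ∑ i ∈ univ.filter P, t := by rw [sum_const, nsmul_eq_mul]
    _ ≤ ∑ i ∈ univ.filter P, F i := sum_le_sum fun i hi => hF i (mem_filter.1 hi).2
    _ ≤ ∑ i, F i := sum_le_sum_of_subset_of_nonneg (filter_subset _ _) (fun i _ _ => hF0 i)
    _ ≤ b := hb

/-- a bound for the size of a polynomial -/
def cf (f : ℤ[X]) : ℕ := ∑ i ∈ range (f.natDegree + 1), (f.coeff i).natAbs

lemma abs_eval_le (f : ℤ[X]) (n : ℕ) (hn : 1 ≤ n) : |f.eval (n : ℤ)| ≤ (cf f : ℤ) * (n : ℤ) ^ f.natDegree := by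
  rw [eval_eq_sum_range]
  refine (abs_sum_le_sum_abs _ _).trans ?_
  unfold cf
  push_cast
  rw [sum_mul]
  apply sum_le_sum
  intro i hi
  rw [mem_range] at hi
  rw [abs_mul, abs_pow, Nat.abs_cast]
  apply mul_le_mul_of_nonneg_left _ (abs_nonneg _)
  exact pow_le_pow_right₀ (by exact_mod_cast hn) (by omega)

lemma mk_ee (x : ℝ) : Pool.Agent.Helper602.MK.ee x = ee x := by
  unfold ee Pool.Agent.Helper602.MK.ee
  congr 1
  ring

lemma moment (f : ℤ[X]) (hd : 1 ≤ f.natDegree) (hl : 0 < f.leadingCoeff) (B : ℕ) (hB : 1 ≤ B) :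
    ∃ p : ℕ, 1 ≤ p ∧ ∃ C : ℝ, 0 < C ∧ ∀ σ : ℤ, (σ = 1 ∨ σ = -1) → ∀ x M : ℕ, 1 ≤ x → 1 ≤ M → M ≤ B * x ^ f.natDegree →
      ∑ t ∈ range M, (‖∑ m ∈ Icc 1 x, ee ((t : ℝ) * (((σ * f.eval (m : ℤ) : ℤ) : ℝ) / M))‖ / x) ^ (2 * p) ≤ C := by
  obtain ⟨p, hp, C, hC, h⟩ := Pool.Agent.H373R2.NB.weyl_moment f hd hl B hB
  refine ⟨p, hp, C, hC, fun σ hσ x M hx hM hMx => ?_⟩
  refine le_trans ?_ (h x M hx hM hMx)
  apply sum_le_sum
  intro t _
  have hx0 : (0 : ℝ) < x := by exact_mod_cast hx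
  have e1 : ‖∑ m ∈ Icc 1 x, ee ((t : ℝ) * (((σ * f.eval (m : ℤ) : ℤ) : ℝ) / M))‖ =
      ‖∑ n ∈ Icc 1 x, Pool.Agent.Helper602.MK.ee ((t : ℝ) * ((f.eval (n : ℤ) : ℤ) : ℝ) / M)‖ := by
    rcases hσ with h1 | h1
    · rw [h1]
      congr 1
      apply sum_congr rfl
      intro m _
      rw [mk_ee]
      congr 1
      push_cast
      ring
    · rw [h1, ← RCLike.norm_conj, map_sum]
      congr 1
      apply sum_congr rfl
      intro m _
      rw [mk_ee, conj_ee]
      congr 1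
      push_cast
      ring
  rw [e1]
  set v := ‖∑ n ∈ Icc 1 x, Pool.Agent.Helper602.MK.ee ((t : ℝ) * ((f.eval (n : ℤ) : ℤ) : ℝ) / M)‖ / x with hv
  have hv0 : 0 ≤ v := by positivity
  have hv1 : v ≤ 1 := by
    rw [hv, div_le_one hx0]
    refine (norm_sum_le _ _).trans ?_
    have : ∀ n ∈ Icc 1 x, ‖Pool.Agent.Helper602.MK.ee ((t : ℝ) * ((f.eval (n : ℤ) : ℤ) : ℝ) / M)‖ ≤ 1 := by
      intro n _
      rw [mk_ee, norm_ee]
    refine (sum_le_sum this).trans ?_
    rw [sum_const, Nat.card_Icc, nsmul_eq_mul]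
    simp
  exact pow_le_pow_of_le_one hv0 hv1 (by omega)

lemma pow_sum_eq (p x : ℕ) (s : ℕ → ℤ) (M : ℕ) (hM : 1 ≤ M) :
    ∑ t ∈ range M, ‖∑ m ∈ Icc 1 x, ee ((t : ℝ) * ((s m : ℝ) / M))‖ ^ (2 * p) =
      ∑ v ∈ Fintype.piFinset (fun _ : Fin p => Icc 1 x), ∑ w ∈ Fintype.piFinset (fun _ : Fin p => Icc 1 x),
        if (M : ℤ) ∣ ∑ i, s (v i) - ∑ i, s (w i) then (M : ℝ) else 0 := by
  have h3 : ∀ t : ℕ, ‖∑ m ∈ Icc 1 x, ee ((t : ℝ) * ((s m : ℝ) / M))‖ ^ (2 * p) =
      ‖∑ v ∈ Fintype.piFinset (fun _ : Fin p => Icc 1 x), ee ((t : ℝ) * (((∑ i, s (v i) : ℤ) : ℝ) / M))‖ ^ 2 := by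
    intro t
    have h4 := pow_expand p x (fun _ => 1) s M t
    simp only [prod_const_one, one_mul] at h4
    rw [← h4, norm_pow, ← pow_mul, mul_comm 2 p]
  rw [sum_congr rfl fun t _ => h3 t]
  have h2 := sq_expand (Fintype.piFinset (fun _ : Fin p => Icc 1 x)) (fun _ => 1) (fun v => ∑ i, s (v i)) M hM
  simp only [one_mul, map_one] at h2
  have h5 : (((∑ t ∈ range M, ‖∑ v ∈ Fintype.piFinset (fun _ : Fin p => Icc 1 x), ee ((t : ℝ) * (((∑ i, s (v i) : ℤ) : ℝ) / M))‖ ^ 2 : ℝ)) : ℂ) =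
      ((∑ v ∈ Fintype.piFinset (fun _ : Fin p => Icc 1 x), ∑ w ∈ Fintype.piFinset (fun _ : Fin p => Icc 1 x),
        (if (M : ℤ) ∣ ∑ i, s (v i) - ∑ i, s (w i) then (M : ℝ) else 0) : ℝ) : ℂ) := by
    rw [h2]
    push_cast
    apply sum_congr rfl
    intro i _
    apply sum_congr rfl
    intro j _
    split_ifs <;> simp
  exact_mod_cast h5

lemma energy_eq (p x : ℕ) (s : ℕ → ℤ) (M : ℕ) :
    (M : ℝ) * energy p x s = ∑ v ∈ Fintype.piFinset (fun _ : Fin p => Icc 1 x), ∑ w ∈ Fintype.piFinset (fun _ : Fin p => Icc 1 x),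
        if ∑ i, s (v i) = ∑ i, s (w i) then (M : ℝ) else 0 := by
  unfold energy
  rw [← sum_product', ← sum_filter, sum_const, nsmul_eq_mul, mul_comm]

/-- the even moment of the exponential sum over a modulus larger than all differences -/
lemma moment_energy (p x : ℕ) (s : ℕ → ℤ) (M : ℕ) (R : ℕ) (hM : 1 ≤ M) (hR : ∀ m ∈ Icc 1 x, |s m| ≤ R) (hMR : 2 * p * R < M) :
    ∑ t ∈ range M, ‖∑ m ∈ Icc 1 x, ee ((t : ℝ) * ((s m : ℝ) / M))‖ ^ (2 * p) = M * energy p x s := by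
  rw [pow_sum_eq p x s M hM, energy_eq]
  apply sum_congr rfl
  intro v hv
  apply sum_congr rfl
  intro w hw
  rw [Fintype.mem_piFinset] at hv hw
  have hb : ∀ u : Fin p → ℕ, (∀ i, u i ∈ Icc 1 x) → |∑ i, s (u i)| ≤ p * R := by
    intro u hu
    refine (abs_sum_le_sum_abs _ _).trans ((sum_le_sum fun i _ => hR _ (hu i)).trans ?_)
    rw [sum_const, card_univ, Fintype.card_fin, nsmul_eq_mul]
  have h1 := abs_le.1 (hb v hv)
  have h2 := abs_le.1 (hb w hw)
  have h3 : |∑ i, s (v i) - ∑ i, s (w i)| < M := by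
    have h4 : ((2 * p * R : ℕ) : ℤ) < M := by exact_mod_cast hMR
    push_cast at h4
    rw [abs_lt]
    constructor <;> linarith [h1.1, h1.2, h2.1, h2.2]
  by_cases h : ∑ i, s (v i) = ∑ i, s (w i)
  · rw [if_pos h, if_pos (by rw [h, sub_self]; exact dvd_zero _)]
  · rw [if_neg h, if_neg]
    intro hd
    apply h
    have := Int.eq_zero_of_abs_lt_dvd hd h3
    omega

/-- an upper bound for the energy from a moment over any modulus -/
lemma energy_le (p x : ℕ) (s : ℕ → ℤ) (M : ℕ) (hM : 1 ≤ M) :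
    (M : ℝ) * energy p x s ≤ ∑ t ∈ range M, ‖∑ m ∈ Icc 1 x, ee ((t : ℝ) * ((s m : ℝ) / M))‖ ^ (2 * p) := by
  rw [pow_sum_eq p x s M hM, energy_eq]
  apply sum_le_sum
  intro v _
  apply sum_le_sum
  intro w _
  by_cases h : ∑ i, s (v i) = ∑ i, s (w i)
  · rw [if_pos h, if_pos (by rw [h, sub_self]; exact dvd_zero _)]
  · rw [if_neg h]
    split_ifs <;> positivity

/-- polynomial values have nearly minimal energy of some order -/
theorem energy_poly (f : ℤ[X]) (hd : 1 ≤ f.natDegree) (hl : 0 < f.leadingCoeff) :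
    ∃ p : ℕ, ∃ C : ℝ, 0 < C ∧ ∀ x : ℕ, 1 ≤ x →
      (energy p x (fun m => f.eval (m : ℤ)) : ℝ) * (x : ℝ) ^ f.natDegree ≤ C * (x : ℝ) ^ (2 * p) := by
  obtain ⟨p, _, C, hC, hmom⟩ := moment f hd hl 1 le_rfl
  refine ⟨p, C, hC, fun x hx => ?_⟩
  have hx0 : (0 : ℝ) < x := by exact_mod_cast hx
  have h1 := hmom 1 (Or.inl rfl) x (x ^ f.natDegree) hx (Nat.one_le_pow _ _ hx) (by rw [one_mul])
  have h2 := energy_le p x (fun m => f.eval (m : ℤ)) (x ^ f.natDegree) (Nat.one_le_pow _ _ hx)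
  simp only [one_mul] at h1
  have h3 : ∀ u : ℕ → ℝ, ∑ t ∈ range (x ^ f.natDegree), (u t / x) ^ (2 * p) = (∑ t ∈ range (x ^ f.natDegree), u t ^ (2 * p)) / (x : ℝ) ^ (2 * p) := by
    intro u
    rw [sum_div]
    exact sum_congr rfl fun t _ => div_pow _ _ _
  rw [h3, div_le_iff₀ (by positivity)] at h1
  have h4 := h2.trans h1
  push_cast at h4 ⊢
  linarith

/-- the energy of the values of a polynomial -/
lemma En_poly (f : ℤ[X]) (p M : ℕ) (c : ℤ) :
    En p (fun i : Fin M => c + f.eval (((i : ℕ) + 1 : ℕ) : ℤ)) ≤ energy p M (fun m => f.eval (m : ℤ)) := by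
  classical
  unfold energy En
  rw [Nat.card_eq_fintype_card, Fintype.card_subtype]
  apply card_le_card_of_injOn (fun q => (fun j => (q.1 j : ℕ) + 1, fun j => (q.2 j : ℕ) + 1))
  · intro q hq
    rw [mem_coe, mem_filter] at hq
    rw [mem_coe, mem_filter, mem_product, Fintype.mem_piFinset, Fintype.mem_piFinset]
    refine ⟨⟨fun j => mem_Icc.2 ⟨Nat.succ_pos _, ?_⟩, fun j => mem_Icc.2 ⟨Nat.succ_pos _, ?_⟩⟩, ?_⟩
    · exact (q.1 j).2
    · exact (q.2 j).2
    · have h1 := hq.2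
      simp only [sum_add_distrib] at h1
      exact add_left_cancel h1
  · intro q _ q' _ h2
    simp only [Prod.mk.injEq] at h2
    apply Prod.ext
    · funext j
      have := congrFun h2.1 j
      apply Fin.ext
      simpa using this
    · funext j
      have := congrFun h2.2 j
      apply Fin.ext
      simpa using this

/-- the energy bound without a condition on the sign of the leading coefficient -/
lemma energy_poly' (f : ℤ[X]) (hd : 1 ≤ f.natDegree) :
    ∃ p : ℕ, ∃ C : ℝ, 0 < C ∧ ∀ x : ℕ, 1 ≤ x →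
      (energy p x (fun m => f.eval (m : ℤ)) : ℝ) * (x : ℝ) ^ f.natDegree ≤ C * (x : ℝ) ^ (2 * p) := by
  rcases lt_trichotomy f.leadingCoeff 0 with h | h | h
  · obtain ⟨p, C, hC, hE⟩ := energy_poly (-f) (by rwa [natDegree_neg]) (by rw [leadingCoeff_neg]; omega)
    refine ⟨p, C, hC, fun x hx => ?_⟩
    have := hE x hx
    rw [natDegree_neg] at this
    have e : energy p x (fun m => (-f).eval (m : ℤ)) = energy p x (fun m => f.eval (m : ℤ)) := by
      unfold energy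
      congr 1
      apply filter_congr
      intro q _
      simp only [eval_neg, sum_neg_distrib, neg_inj]
    rw [e] at this
    exact this
  · rw [leadingCoeff_eq_zero] at h
    subst h
    simp at hd
  · exact energy_poly f hd h

lemma log_large (C : ℝ) : ∃ m : ℕ, ∀ M : ℕ, m ≤ M → 1 ≤ M ∧ C ≤ Real.log M := by
  have h := (Real.tendsto_log_atTop.comp tendsto_natCast_atTop_atTop).eventually_ge_atTop C
  obtain ⟨m, hm⟩ := Filter.eventually_atTop.1 h
  exact ⟨m + 1, fun M hM => ⟨by omega, hm M (by omega)⟩⟩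

/-- the hypotheses of the general theorem for polynomial values -/
theorem poly_hyp (f : ℤ[X]) (hd : 1 ≤ f.natDegree) (B : ℕ) :
    ∃ p B' M0 : ℕ, B ≤ B' ∧ ∀ M : ℕ, M0 ≤ M → ∀ c : ℤ, |c| ≤ B * (M ^ f.natDegree : ℕ) →
      (∀ i : Fin M, |c + f.eval (((i : ℕ) + 1 : ℕ) : ℤ)| ≤ B' * (M ^ f.natDegree : ℕ)) ∧
      (En p (fun i : Fin M => c + f.eval (((i : ℕ) + 1 : ℕ) : ℤ)) : ℝ) * (M ^ f.natDegree : ℕ) ≤
        Real.log (M ^ f.natDegree : ℕ) ^ 1 * (Fintype.card (Fin M) : ℝ) ^ (2 * p) := by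
  obtain ⟨p, C, hC, hE⟩ := energy_poly' f hd
  obtain ⟨m1, h1⟩ := log_large C
  refine ⟨p, B + cf f, m1, by omega, fun M hM c hc => ?_⟩
  have hMp : M ≤ M ^ f.natDegree := Nat.le_self_pow (by omega) M
  obtain ⟨_, hLC⟩ := h1 (M ^ f.natDegree) (hM.trans hMp)
  obtain ⟨hM1, _⟩ := h1 M hM
  constructor
  · intro i
    refine (abs_add_le _ _).trans ?_
    push_cast at hc ⊢
    have q1 := abs_eval_le f ((i : ℕ) + 1) (by omega)
    have q2 : (((i : ℕ) + 1 : ℕ) : ℤ) ^ f.natDegree ≤ (M : ℤ) ^ f.natDegree := by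
      apply pow_le_pow_left₀ (by positivity)
      exact_mod_cast (i.2 : (i : ℕ) + 1 ≤ M)
    push_cast at q1 q2
    have q3 : (0 : ℤ) ≤ cf f := by positivity
    nlinarith
  · have q1 := En_poly f p M c
    have q2 := hE M hM1
    rw [Fintype.card_fin, pow_one]
    push_cast
    calc (En p (fun i : Fin M => c + f.eval (((i : ℕ) + 1 : ℕ) : ℤ)) : ℝ) * (M : ℝ) ^ f.natDegree
        ≤ (energy p M (fun m => f.eval (m : ℤ)) : ℝ) * (M : ℝ) ^ f.natDegree := by
          apply mul_le_mul_of_nonneg_right _ (by positivity)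
          exact_mod_cast q1
      _ ≤ C * (M : ℝ) ^ (2 * p) := q2
      _ ≤ _ := by
          apply mul_le_mul_of_nonneg_right _ (by positivity)
          push_cast at hLC
          exact hLC

end Pool.Agent.TH212.PL
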